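import Pool.Graph.R_seed8.R256.Haus4

set_option autoImplicit false

/-!
# The rate constants of MP_fbd0a7_an: lower limits, general kernels, and why positivity matters
-/

open MeasureTheory Filter Topology Set

namespace Pool.Agent.Results.MP_fbd0a7_an.LowerLimits

noncomputable section

/-- upper envelope `S(f;x)` of a bounded function (the point `x` itself is included) -/
def S (f : ℝ → ℝ) (x : ℝ) : ℝ := limsup f (𝓝 x)

/-- lower envelope `I(f;x)` -/
def I (f : ℝ → ℝ) (x : ℝ) : ℝ := liminf f (𝓝 x)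

/-- the completed graph of `f` -/
def graph (f : ℝ → ℝ) : Set (ℝ × ℝ) := {q | I f q.1 ≤ q.2 ∧ q.2 ≤ S f q.1}

/-- the distance `ρ_α` in the plane -/
def dist (α : ℝ) (A B : ℝ × ℝ) : ℝ := max (α⁻¹ * |A.1 - B.1|) |A.2 - B.2|

/-- the Hausdorff distance `r(α; f, g)` with parameter `α` -/
def r (α : ℝ) (f g : ℝ → ℝ) : ℝ :=
  max (⨆ A : graph f, ⨅ B : graph g, dist α A B) (⨆ A : graph g, ⨅ B : graph f, dist α A B)

/-- the Gauss–Weierstrass operator `W_n` -/
def W (n : ℕ) (f : ℝ → ℝ) (x : ℝ) : ℝ :=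
  Real.sqrt (n / Real.pi) * ∫ t, f t * Real.exp (-n * (t - x) ^ 2)

/-- the Abel–Poisson operator `P_ρ` -/
def P (ρ : ℝ) (f : ℝ → ℝ) (x : ℝ) : ℝ :=
  1 / (2 * Real.pi) * ∫ t in (-Real.pi)..Real.pi,
    f (x - t) * ((1 - ρ ^ 2) / (1 - 2 * ρ * Real.cos t + ρ ^ 2))

/-- the de la Vallée-Poussin operator `V_n` -/
def V (n : ℕ) (f : ℝ → ℝ) (x : ℝ) : ℝ :=
  ((n.factorial : ℝ) ^ 2 / (2 * Real.pi * ((2 * n).factorial : ℝ))) *
    ∫ t in (-Real.pi)..Real.pi, f (x - t) * (2 * Real.cos (t / 2)) ^ (2 * n)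

/-- bounded Lebesgue measurable functions on the line -/
def Adm (f : ℝ → ℝ) : Prop := AEMeasurable f volume ∧ ∃ M : ℝ, ∀ t, |f t| ≤ M

/-- `liminf_n α √n r(α; f, W_n f)`, as an extended real -/
def lW (α : ℝ) (f : ℝ → ℝ) : EReal :=
  liminf (fun n : ℕ => ((α * Real.sqrt n * r α f (W n f) : ℝ) : EReal)) atTop

/-- `liminf_{ρ → 1-} (α/(1-ρ)) r(α; f, P_ρ f)`, as an extended real -/
def lP (α : ℝ) (f : ℝ → ℝ) : EReal :=
  liminf (fun ρ : ℝ => ((α / (1 - ρ) * r α f (P ρ f) : ℝ) : EReal)) (𝓝[<] 1)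

/-- `liminf_n α √n r(α; f, V_n f)`, as an extended real -/
def lV (α : ℝ) (f : ℝ → ℝ) : EReal :=
  liminf (fun n : ℕ => ((α * Real.sqrt n * r α f (V n f) : ℝ) : EReal)) atTop

/-- `limsup_n α √n r(α; f, W_n f)`, as an extended real -/
def LW (α : ℝ) (f : ℝ → ℝ) : EReal :=
  limsup (fun n : ℕ => ((α * Real.sqrt n * r α f (W n f) : ℝ) : EReal)) atTop

/-- `limsup_{ρ → 1-} (α/(1-ρ)) r(α; f, P_ρ f)`, as an extended real -/
def LP (α : ℝ) (f : ℝ → ℝ) : EReal :=
  limsup (fun ρ : ℝ => ((α / (1 - ρ) * r α f (P ρ f) : ℝ) : EReal)) (𝓝[<] 1)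

/-- `limsup_n α √n r(α; f, V_n f)`, as an extended real -/
def LV (α : ℝ) (f : ℝ → ℝ) : EReal :=
  limsup (fun n : ℕ => ((α * Real.sqrt n * r α f (V n f) : ℝ) : EReal)) atTop

/-- the constant `c_W^*` -/
def cW (α : ℝ) : EReal :=
  sSup ((fun c : ℝ => (c : EReal)) '' {c | ∀ f : ℝ → ℝ, Adm f → LW α f < (c : EReal) → Continuous f})

/-- the constant `c_P^*` -/
def cP (α : ℝ) : EReal :=
  sSup ((fun c : ℝ => (c : EReal)) '' {c | ∀ f : ℝ → ℝ, Adm f → Function.Periodic f (2 * Real.pi) →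
    LP α f < (c : EReal) → Continuous f})

/-- the constant `c_V^*` -/
def cV (α : ℝ) : EReal :=
  sSup ((fun c : ℝ => (c : EReal)) '' {c | ∀ f : ℝ → ℝ, Adm f → Function.Periodic f (2 * Real.pi) →
    LV α f < (c : EReal) → Continuous f})

/-- The kernels `k n` form an approximate identity which is positive at the scale `s n`: they are
nonnegative with integral `1`, the mass outside every neighbourhood of `0` tends to `0`, and for every
`C` there is `c > 0` with `k n t ≥ c / s n` for `|t| ≤ C s n` and all large `n`. -/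
structure Good (k : ℕ → ℝ → ℝ) (s : ℕ → ℝ) : Prop where
  pos : ∀ n, 0 < s n
  lim : Tendsto s atTop (𝓝 0)
  nonneg : ∀ n t, 0 ≤ k n t
  int : ∀ n, Integrable (k n)
  mass : ∀ n, ∫ t, k n t = 1
  tail : ∀ δ > 0, Tendsto (fun n => ∫ t in {t | δ ≤ |t|}, k n t) atTop (𝓝 0)
  low : ∀ C > 0, ∃ c > 0, ∀ᶠ n in atTop, ∀ t, |t| ≤ C * s n → c / s n ≤ k n t

/-- the convolution operator with kernel `k` -/
def T (k : ℝ → ℝ) (f : ℝ → ℝ) (x : ℝ) : ℝ := ∫ t, f (x - t) * k t

/-- the Steklov means `A_n f (x) = (n/2) ∫_{x - 1/n}^{x + 1/n} f` -/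
def A (n : ℕ) (f : ℝ → ℝ) (x : ℝ) : ℝ := n / 2 * ∫ t in (x - 1 / n)..(x + 1 / n), f t

/-- the unit step -/
def step : ℝ → ℝ := indicator (Ioi 0) 1

/-! ### the general theorem -/

lemma core_freq {f : ℝ → ℝ} (hf : Adm f) {α : ℝ} (hα : 0 < α) {k : ℕ → ℝ → ℝ} {s : ℕ → ℝ}
    (hG : Good k s) {C : ℝ} (hh : ∃ᶠ n in atTop, r α f (T (k n) f) < C * s n) : Continuous f := by
  obtain ⟨hm, M, hM⟩ := hf
  have hh' : ∃ᶠ n in atTop, r α f (T (k n) f) < max C 1 * s n :=
    hh.mono fun n hn => hn.trans_le (mul_le_mul_of_nonneg_right (le_max_left _ _) (hG.pos n).le)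
  obtain ⟨φ, hφ, hφ'⟩ := extraction_of_frequently_atTop hh'
  refine Pool.Agent.R256.Haus.core hm.aestronglyMeasurable hM hα (fun n => k (φ n)) (fun n => s (φ n))
    (fun n => hG.pos _) (hG.lim.comp hφ.tendsto_atTop) (fun n => hG.nonneg _) (fun n => hG.int _)
    (fun n => hG.mass _) (fun δ hδ => (hG.tail δ hδ).comp hφ.tendsto_atTop) ?_
    (lt_of_lt_of_le one_pos (le_max_right C 1)) (Eventually.of_forall hφ')
  intro D hD
  obtain ⟨c, hc, h⟩ := hG.low D hD
  exact ⟨c, hc, hφ.tendsto_atTop.eventually h⟩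

/-! ### the three operators -/

/-- the Gauss kernel, shifted index -/
def kW (n : ℕ) (t : ℝ) : ℝ :=
  Real.sqrt ((n + 1 : ℕ) / Real.pi) * Real.exp (-((n + 1 : ℕ) : ℝ) * t ^ 2)

/-- the scale `1/√(n+1)` -/
def sR (n : ℕ) : ℝ := (Real.sqrt ((n + 1 : ℕ) : ℝ))⁻¹

open Pool.Agent.R256.Haus in
lemma goodW : Good kW sR := by
  set k : ℕ → ℝ → ℝ := kW with hk
  have hk : k = fun n t =>
    Real.sqrt ((n + 1 : ℕ) / Real.pi) * Real.exp (-((n + 1 : ℕ) : ℝ) * t ^ 2) := rfl
  set s : ℕ → ℝ := sR with hs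
  have hs : s = fun n => (Real.sqrt ((n + 1 : ℕ) : ℝ))⁻¹ := rfl
  have hp : ∀ n : ℕ, (0:ℝ) < ((n + 1 : ℕ) : ℝ) := fun n => by positivity
  have hs' : ∀ n, 0 < s n := fun n => by
    have := hp n
    rw [hs]; positivity
  have hsq : ∀ n : ℕ, Real.sqrt ((n + 1 : ℕ) : ℝ) ^ 2 = ((n + 1 : ℕ) : ℝ) := fun n =>
    Real.sq_sqrt (hp n).le
  have htop : Tendsto (fun n : ℕ => ((n + 1 : ℕ) : ℝ)) atTop atTop :=
    tendsto_natCast_atTop_atTop.comp (tendsto_add_atTop_nat 1)
  refine ⟨hs', ?_, ?_, ?_, ?_, ?_, ?_⟩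
  · exact (Real.tendsto_sqrt_atTop.comp htop).inv_tendsto_atTop
  · intro n t
    rw [hk]; positivity
  · intro n
    exact (integrable_exp_neg_mul_sq (hp n)).const_mul _
  · intro n
    rw [hk]
    simp only
    rw [integral_const_mul, integral_gaussian, ← Real.sqrt_mul (by positivity)]
    have : ((n + 1 : ℕ) : ℝ) / Real.pi * (Real.pi / ((n + 1 : ℕ) : ℝ)) = 1 := by
      have := hp n
      have := Real.pi_pos
      field_simp
    rw [this, Real.sqrt_one]
  · intro δ hδ
    have hub : ∀ n : ℕ, ∫ t in {t : ℝ | δ ≤ |t|}, k n t ≤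
        Real.exp (δ ^ 2) * (((n + 1 : ℕ) : ℝ) ^ (1 / 2 : ℝ) * Real.exp (-δ ^ 2 * ((n + 1 : ℕ) : ℝ))) := by
      intro n
      have hint : Integrable fun t : ℝ => Real.exp (-1 * t ^ 2) := integrable_exp_neg_mul_sq one_pos
      have h1 : ∫ t in {t : ℝ | δ ≤ |t|}, k n t ≤
          ∫ t in {t : ℝ | δ ≤ |t|}, (Real.sqrt ((n + 1 : ℕ) / Real.pi) *
            Real.exp (-δ ^ 2 * (n : ℝ))) * Real.exp (-1 * t ^ 2) := by
        refine setIntegral_mono_on ?_ ?_ ?_ ?_
        · exact ((integrable_exp_neg_mul_sq (hp n)).const_mul _).integrableOn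
        · exact (hint.const_mul _).integrableOn
        · exact measurableSet_le measurable_const (by fun_prop)
        · intro t ht
          rw [hk]
          simp only
          rw [mul_assoc]
          refine mul_le_mul_of_nonneg_left ?_ (Real.sqrt_nonneg _)
          rw [← Real.exp_add]
          apply Real.exp_le_exp.mpr
          have h2 : δ ^ 2 ≤ t ^ 2 := by
            rw [← sq_abs t]
            exact pow_le_pow_left₀ hδ.le ht 2
          push_cast
          nlinarith [mul_le_mul_of_nonneg_left h2 (Nat.cast_nonneg (α := ℝ) n)]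
      refine h1.trans ?_
      have h3 : ∫ t in {t : ℝ | δ ≤ |t|}, (Real.sqrt ((n + 1 : ℕ) / Real.pi) *
            Real.exp (-δ ^ 2 * (n : ℝ))) * Real.exp (-1 * t ^ 2) ≤
            ∫ t, (Real.sqrt ((n + 1 : ℕ) / Real.pi) *
            Real.exp (-δ ^ 2 * (n : ℝ))) * Real.exp (-1 * t ^ 2) := by
        apply setIntegral_le_integral (hint.const_mul _)
        exact Eventually.of_forall fun t => by positivity
      refine h3.trans (le_of_eq ?_)
      rw [integral_const_mul, integral_gaussian, div_one, Real.sqrt_div' _ Real.pi_pos.le,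
        ← Real.sqrt_eq_rpow]
      have : Real.sqrt Real.pi ≠ 0 := (Real.sqrt_pos.mpr Real.pi_pos).ne'
      have he : Real.exp (-δ ^ 2 * (n : ℝ)) = Real.exp (δ ^ 2) *
          Real.exp (-δ ^ 2 * ((n + 1 : ℕ) : ℝ)) := by
        rw [← Real.exp_add]; congr 1; push_cast; ring
      rw [he]
      field_simp
    refine squeeze_zero (fun n => ?_) hub ?_
    · refine integral_nonneg fun t => ?_
      rw [hk]; positivity
    · have h := (tendsto_rpow_mul_exp_neg_mul_atTop_nhds_zero (1 / 2) (δ ^ 2) (by positivity)).comp htop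
      have h' := h.const_mul (Real.exp (δ ^ 2))
      rw [mul_zero] at h'
      refine h'.congr fun n => ?_
      simp only [Function.comp_apply]
  · intro D hD
    refine ⟨Real.exp (-D ^ 2) / Real.sqrt Real.pi, by positivity, Eventually.of_forall fun n t ht => ?_⟩
    rw [hk, hs]
    simp only
    rw [div_inv_eq_mul, Real.sqrt_div' _ Real.pi_pos.le]
    have h1 : Real.exp (-D ^ 2) ≤ Real.exp (-((n + 1 : ℕ) : ℝ) * t ^ 2) := by
      apply Real.exp_le_exp.mpr
      have h2 : t ^ 2 ≤ (D * s n) ^ 2 := by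
        rw [← sq_abs t]
        exact pow_le_pow_left₀ (abs_nonneg _) ht 2
      have h3 : (D * s n) ^ 2 = D ^ 2 / ((n + 1 : ℕ) : ℝ) := by
        rw [mul_pow, hs]
        simp only
        rw [inv_pow, hsq]; rfl
      rw [h3, le_div_iff₀ (hp n)] at h2
      linarith
    calc Real.exp (-D ^ 2) / √Real.pi * √((n + 1 : ℕ) : ℝ)
        = √((n + 1 : ℕ) : ℝ) / √Real.pi * Real.exp (-D ^ 2) := by ring
      _ ≤ _ := mul_le_mul_of_nonneg_left h1 (by positivity)

open Pool.Agent.R256.Haus in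
lemma goodV : Good (fun n => ext (vk (n + 1))) sR := by
  have hπ := Real.pi_pos
  set k : ℕ → ℝ → ℝ := fun n => ext (vk (n + 1)) with hk
  set s : ℕ → ℝ := sR with hs
  have hs : s = fun n => (Real.sqrt ((n + 1 : ℕ) : ℝ))⁻¹ := rfl
  have hp : ∀ n : ℕ, (0:ℝ) < ((n + 1 : ℕ) : ℝ) := fun n => by positivity
  have hs' : ∀ n, 0 < s n := fun n => by
    have := hp n
    rw [hs]; positivity
  have htop : Tendsto (fun n : ℕ => ((n + 1 : ℕ) : ℝ)) atTop atTop :=
    tendsto_natCast_atTop_atTop.comp (tendsto_add_atTop_nat 1)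
  have hs0 : Tendsto s atTop (𝓝 0) := (Real.tendsto_sqrt_atTop.comp htop).inv_tendsto_atTop
  refine ⟨hs', hs0, ?_, ?_, ?_, ?_, ?_⟩
  · intro n t
    exact ext_nonneg (vk_nonneg _) t
  · intro n
    exact ext_integrable (vk_cont _)
  · intro n
    rw [hk]
    simp only
    rw [ext_integral']
    exact vk_mass _
  · intro δ' hδ'
    -- reduce to `δ ≤ π`
    set δ := min δ' Real.pi with hδd
    have hδ : 0 < δ := lt_min hδ' hπ
    have hδπ : δ ≤ Real.pi := min_le_right _ _
    set q := |1 - δ ^ 2 / Real.pi ^ 2| with hq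
    have hq0 : 0 ≤ q := abs_nonneg _
    have hq1 : q < 1 := by
      have h1 : 0 < δ ^ 2 / Real.pi ^ 2 := by positivity
      have h2 : δ ^ 2 / Real.pi ^ 2 ≤ 1 := by
        rw [div_le_one (by positivity)]
        exact pow_le_pow_left₀ hδ.le hδπ 2
      rw [hq, abs_of_nonneg (by linarith)]
      linarith
    have hub : ∀ n : ℕ, ∫ t in {t : ℝ | δ' ≤ |t|}, k n t ≤
        2 * Real.pi * (1 / (2 * Real.pi) * (((n + 1 : ℕ) + 1) * q ^ (n + 1))) := by
      intro n
      refine ext_tail (vk_cont _) hδ' ?_ ?_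
      · positivity
      · intro t ht1 ht2
        exact vk_tail (n + 1) hδ t ((min_le_left _ _).trans ht1) ht2
    refine squeeze_zero (fun n => ?_) hub ?_
    · refine integral_nonneg fun t => ?_
      exact ext_nonneg (vk_nonneg _) t
    · have h1 : Tendsto (fun n : ℕ => (n : ℝ) * q ^ n) atTop (𝓝 0) :=
        tendsto_self_mul_const_pow_of_lt_one hq0 hq1
      have h2 : Tendsto (fun n : ℕ => q ^ n) atTop (𝓝 0) := tendsto_pow_atTop_nhds_zero_of_lt_one hq0 hq1
      have h3 := (((h1.add h2).comp (tendsto_add_atTop_nat 1)).const_mul (1 / (2 * Real.pi))).const_mul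
        (2 * Real.pi)
      simp only [add_zero, mul_zero] at h3
      refine h3.congr fun n => ?_
      simp only [Function.comp_apply]
      ring
  · intro D hD
    refine ⟨Real.exp (-(D ^ 2 / 2)) / (2 * Real.pi), by positivity, ?_⟩
    have hsm : ∀ᶠ n in atTop, D * s n < Real.pi := by
      have h := hs0.const_mul D
      rw [mul_zero] at h
      exact h.eventually (gt_mem_nhds hπ)
    have hbig : ∀ᶠ n : ℕ in atTop, D ^ 2 ≤ 4 * ((n + 1 : ℕ) : ℝ) := by
      filter_upwards [htop.eventually_ge_atTop (D ^ 2 / 4)] with n hn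
      linarith
    filter_upwards [hsm, hbig] with n hn hb t ht
    have hmem : t ∈ Ioc (-Real.pi) Real.pi := by
      have := abs_lt.mp (lt_of_le_of_lt ht hn)
      exact ⟨this.1, this.2.le⟩
    rw [hk]
    simp only [Pool.Agent.R256.Haus.ext, indicator_of_mem hmem]
    exact vk_low n hD hb t ht

open Pool.Agent.R256.Haus in
lemma goodP {s : ℕ → ℝ} (hs' : ∀ n, 0 < s n) (hs2 : ∀ n, s n ≤ 1 / 2)
    (hs0 : Tendsto s atTop (𝓝 0)) : Good (fun n => ext (pk (1 - s n))) s := by
  set k : ℕ → ℝ → ℝ := fun n => ext (pk (1 - s n)) with hk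
  have hρ0 : ∀ n, (1:ℝ) / 2 ≤ 1 - s n := fun n => by linarith [hs2 n]
  have hρ1 : ∀ n, 1 - s n < 1 := fun n => by linarith [hs' n]
  refine ⟨hs', hs0, ?_, ?_, ?_, ?_, ?_⟩
  · intro n t
    exact ext_nonneg (pk_nonneg (by linarith [hρ0 n]) (hρ1 n)) t
  · intro n
    exact ext_integrable (pk_cont (by linarith [hρ0 n]) (hρ1 n))
  · intro n
    rw [hk]
    simp only
    rw [ext_integral']
    exact pk_mass (by linarith [hρ0 n]) (hρ1 n)
  · intro δ hδ
    have hub : ∀ n : ℕ, ∫ t in {t : ℝ | δ ≤ |t|}, k n t ≤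
        2 * Real.pi * (Real.pi / (2 * δ ^ 2) * (1 - (1 - s n))) := by
      intro n
      refine ext_tail (pk_cont (by linarith [hρ0 n]) (hρ1 n)) hδ ?_ ?_
      · have := hs' n
        have := Real.pi_pos
        have : 0 < 1 - (1 - s n) := by linarith
        positivity
      · intro t ht1 ht2
        exact pk_tail (hρ0 n) (hρ1 n) hδ t ht1 ht2
    refine squeeze_zero (fun n => ?_) hub ?_
    · refine integral_nonneg fun t => ?_
      exact ext_nonneg (pk_nonneg (by linarith [hρ0 n]) (hρ1 n)) t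
    · have h := ((hs0.const_mul (Real.pi / (2 * δ ^ 2))).const_mul (2 * Real.pi))
      rw [mul_zero, mul_zero] at h
      refine h.congr fun n => ?_
      ring
  · intro D hD
    refine ⟨1 / (2 * Real.pi * (1 + D ^ 2)), by have := Real.pi_pos; positivity, ?_⟩
    have hsm : ∀ᶠ n in atTop, D * s n < Real.pi := by
      have h := hs0.const_mul D
      rw [mul_zero] at h
      exact h.eventually (gt_mem_nhds Real.pi_pos)
    filter_upwards [hsm] with n hn t ht
    have hmem : t ∈ Ioc (-Real.pi) Real.pi := by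
      have := abs_lt.mp (lt_of_le_of_lt ht hn)
      exact ⟨this.1, this.2.le⟩
    rw [hk]
    simp only [Pool.Agent.R256.Haus.ext, indicator_of_mem hmem]
    have h1 : s n = 1 - (1 - s n) := by ring
    rw [h1] at ht ⊢
    have h2 := pk_low (ρ := 1 - s n) (by linarith [hρ0 n]) (hρ1 n) (D := D) t ht
    convert h2 using 2 <;> ring


open Pool.Agent.R256.Haus in
lemma contW {α : ℝ} (hα : 0 < α) {f : ℝ → ℝ} (hf : Adm f) {c : ℝ}
    (h : ∃ᶠ n : ℕ in atTop, α * Real.sqrt n * r α f (W n f) < c) : Continuous f := by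
  refine core_freq hf hα goodW (C := c / α) ?_
  have h1 : ∃ᶠ n : ℕ in atTop, α * Real.sqrt ((n + 1 : ℕ) : ℝ) * r α f (W (n + 1) f) < c := by
    rw [frequently_atTop] at h ⊢
    intro a
    obtain ⟨b, hb, hb'⟩ := h (a + 1)
    obtain ⟨b, rfl⟩ : ∃ b', b = b' + 1 := ⟨b - 1, by omega⟩
    exact ⟨b, by omega, hb'⟩
  refine h1.mono fun n hn => ?_
  have e : T (kW n) f = W (n + 1) f := by
    funext x
    exact (W_eq (n + 1) f x).symm
  rw [e]
  have hq : 0 < Real.sqrt ((n + 1 : ℕ) : ℝ) := Real.sqrt_pos.mpr (by positivity)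
  unfold sR
  rw [← div_eq_mul_inv, lt_div_iff₀ hq, lt_div_iff₀ hα]
  calc r α f (W (n + 1) f) * √((n + 1 : ℕ) : ℝ) * α
      = α * √((n + 1 : ℕ) : ℝ) * r α f (W (n + 1) f) := by ring
    _ < c := hn

open Pool.Agent.R256.Haus in
lemma contV {α : ℝ} (hα : 0 < α) {f : ℝ → ℝ} (hf : Adm f) {c : ℝ}
    (h : ∃ᶠ n : ℕ in atTop, α * Real.sqrt n * r α f (V n f) < c) : Continuous f := by
  refine core_freq hf hα goodV (C := c / α) ?_
  have h1 : ∃ᶠ n : ℕ in atTop, α * Real.sqrt ((n + 1 : ℕ) : ℝ) * r α f (V (n + 1) f) < c := by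
    rw [frequently_atTop] at h ⊢
    intro a
    obtain ⟨b, hb, hb'⟩ := h (a + 1)
    obtain ⟨b, rfl⟩ : ∃ b', b = b' + 1 := ⟨b - 1, by omega⟩
    exact ⟨b, by omega, hb'⟩
  refine h1.mono fun n hn => ?_
  have e : T (Pool.Agent.R256.Haus.ext (vk (n + 1))) f = V (n + 1) f := by
    funext x
    exact (V_eq (n + 1) f x).symm
  rw [e]
  have hq : 0 < Real.sqrt ((n + 1 : ℕ) : ℝ) := Real.sqrt_pos.mpr (by positivity)
  unfold sR
  rw [← div_eq_mul_inv, lt_div_iff₀ hq, lt_div_iff₀ hα]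
  calc r α f (V (n + 1) f) * √((n + 1 : ℕ) : ℝ) * α
      = α * √((n + 1 : ℕ) : ℝ) * r α f (V (n + 1) f) := by ring
    _ < c := hn

open Pool.Agent.R256.Haus in
lemma contP {α : ℝ} (hα : 0 < α) {f : ℝ → ℝ} (hf : Adm f) {c : ℝ}
    (h : ∃ᶠ ρ : ℝ in 𝓝[<] 1, α / (1 - ρ) * r α f (P ρ f) < c) : Continuous f := by
  have h1 : ∀ᶠ ρ : ℝ in 𝓝[<] 1, ρ < 1 := self_mem_nhdsWithin
  have h2 : ∀ᶠ ρ : ℝ in 𝓝[<] 1, 1 / 2 ≤ ρ :=
    nhdsWithin_le_nhds (eventually_ge_nhds (by norm_num))
  obtain ⟨ρ, hρ, hρ'⟩ := exists_seq_forall_of_frequently (h.and_eventually (h1.and h2))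
  set s : ℕ → ℝ := fun n => 1 - ρ n with hs
  have hs0 : Tendsto s atTop (𝓝 0) := by
    have h3 : Tendsto ρ atTop (𝓝 1) := hρ.mono_right nhdsWithin_le_nhds
    have h4 := h3.const_sub 1
    rwa [sub_self] at h4
  have hG : Good (fun n => Pool.Agent.R256.Haus.ext (pk (1 - s n))) s :=
    goodP (fun n => by rw [hs]; simp only; linarith [(hρ' n).2.1])
      (fun n => by rw [hs]; simp only; linarith [(hρ' n).2.2]) hs0
  refine core_freq hf hα hG (C := c / α) (Eventually.of_forall fun n => ?_).frequently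
  have e : T (Pool.Agent.R256.Haus.ext (pk (1 - s n))) f = P (ρ n) f := by
    funext x
    have e1 : 1 - s n = ρ n := by rw [hs]; ring
    rw [e1]
    exact (P_eq (ρ n) f x).symm
  rw [e]
  have hpos := hG.pos n
  have h3 := (hρ' n).1
  have e2 : 1 - ρ n = s n := rfl
  rw [e2, div_mul_eq_mul_div, div_lt_iff₀ hpos] at h3
  rw [div_mul_eq_mul_div, lt_div_iff₀ hα]
  calc r α f (P (ρ n) f) * α = α * r α f (P (ρ n) f) := by ring
    _ < c * s n := h3

lemma freq_of_liminf {ι : Type} {l : Filter ι} {u : ι → ℝ}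
    (h : liminf (fun i => ((u i : ℝ) : EReal)) l < ⊤) : ∃ c : ℝ, ∃ᶠ i in l, u i < c := by
  obtain ⟨c, hc, -⟩ := EReal.lt_iff_exists_real_btwn.mp h
  exact ⟨c, (frequently_lt_of_liminf_lt (by isBoundedDefault) hc).mono
    fun i hi => EReal.coe_lt_coe_iff.mp hi⟩

/-! ### the Steklov means of the unit step -/

lemma step_adm : Adm step := by
  refine ⟨((measurable_const (a := (1:ℝ))).indicator measurableSet_Ioi).aemeasurable, 1, fun t => ?_⟩
  unfold step
  by_cases h : t ∈ Ioi (0:ℝ)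
  · rw [indicator_of_mem h]; simp
  · rw [indicator_of_notMem h]; simp

lemma step_not_cont : ¬ Continuous step := by
  intro h
  have h1 : Tendsto step (𝓝[>] 0) (𝓝 (step 0)) := (h.tendsto 0).mono_left nhdsWithin_le_nhds
  have h2 : Tendsto step (𝓝[>] 0) (𝓝 1) := by
    refine tendsto_const_nhds.congr' ?_
    filter_upwards [self_mem_nhdsWithin] with t ht
    unfold step
    rw [indicator_of_mem ht]; rfl
  have h3 := tendsto_nhds_unique h1 h2
  simp [step] at h3

lemma graph_cont {g : ℝ → ℝ} {x : ℝ} (hg : ContinuousAt g x) (y : ℝ) :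
    (x, y) ∈ graph g ↔ y = g x := by
  have h1 : I g x = g x := hg.tendsto.liminf_eq
  have h2 : S g x = g x := hg.tendsto.limsup_eq
  show I g x ≤ y ∧ y ≤ S g x ↔ _
  rw [h1, h2]
  constructor
  · rintro ⟨h3, h4⟩; exact le_antisymm h4 h3
  · rintro rfl; exact ⟨le_rfl, le_rfl⟩

lemma step_pos {x : ℝ} (hx : 0 < x) : ContinuousAt step x ∧ step x = 1 := by
  have e : ∀ t, 0 < t → step t = 1 := fun t ht => by
    unfold step; rw [indicator_of_mem (mem_Ioi.mpr ht)]; rfl
  refine ⟨?_, e x hx⟩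
  rw [ContinuousAt, e x hx]
  refine tendsto_const_nhds.congr' ?_
  filter_upwards [lt_mem_nhds hx] with t ht using (e t ht).symm

lemma step_neg {x : ℝ} (hx : x < 0) : ContinuousAt step x ∧ step x = 0 := by
  have e : ∀ t, t < 0 → step t = 0 := fun t ht => by
    unfold step; rw [indicator_of_notMem (by simp; linarith)]
  refine ⟨?_, e x hx⟩
  rw [ContinuousAt, e x hx]
  refine tendsto_const_nhds.congr' ?_
  filter_upwards [gt_mem_nhds hx] with t ht using (e t ht).symm

lemma step_zero (y : ℝ) : ((0:ℝ), y) ∈ graph step ↔ 0 ≤ y ∧ y ≤ 1 := by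
  have hb : ∀ t, 0 ≤ step t ∧ step t ≤ 1 := fun t => by
    unfold step
    by_cases h : t ∈ Ioi (0:ℝ)
    · rw [indicator_of_mem h]; simp
    · rw [indicator_of_notMem h]; simp
  have bu : IsBoundedUnder (· ≤ ·) (𝓝 (0:ℝ)) step := isBoundedUnder_of ⟨1, fun t => (hb t).2⟩
  have bl : IsBoundedUnder (· ≥ ·) (𝓝 (0:ℝ)) step := isBoundedUnder_of ⟨0, fun t => (hb t).1⟩
  have h1 : I step 0 = 0 := by
    refine le_antisymm ?_ ?_
    · refine liminf_le_of_frequently_le ?_ bl
      rw [frequently_iff]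
      intro U hU
      exact ⟨0, mem_of_mem_nhds hU, by simp [step]⟩
    · exact le_liminf_of_le bu.isCoboundedUnder_ge (Eventually.of_forall fun t => (hb t).1)
  have h2 : S step 0 = 1 := by
    refine le_antisymm ?_ ?_
    · exact limsup_le_of_le bl.isCoboundedUnder_le (Eventually.of_forall fun t => (hb t).2)
    · refine le_limsup_of_frequently_le ?_ bu
      have h3 : ∃ᶠ t in 𝓝[>] (0:ℝ), (1:ℝ) ≤ step t := by
        refine Eventually.frequently ?_
        filter_upwards [self_mem_nhdsWithin] with t ht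
        exact (step_pos ht).2.ge
      exact h3.filter_mono nhdsWithin_le_nhds
  show I step 0 ≤ y ∧ y ≤ S step 0 ↔ _
  rw [h1, h2]

lemma int_step {a b : ℝ} (hab : a ≤ b) : ∫ t in a..b, step t = max (b - max a 0) 0 := by
  rw [intervalIntegral.integral_of_le hab]
  unfold step
  rw [setIntegral_indicator measurableSet_Ioi, Ioc_inter_Ioi]
  simp [max_comm]

lemma A_step {n : ℕ} (hn : 1 ≤ n) (x : ℝ) :
    A n step x = n / 2 * max (x + 1 / n - max (x - 1 / n) 0) 0 := by
  have : (0:ℝ) < 1 / n := by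
    have : (0:ℝ) < n := by exact_mod_cast hn
    positivity
  unfold A
  rw [int_step (by linarith)]

lemma A_cont {n : ℕ} (hn : 1 ≤ n) : Continuous (A n step) := by
  have : A n step = fun x : ℝ => n / 2 * max (x + 1 / n - max (x - 1 / n) 0) 0 :=
    funext (A_step hn)
  rw [this]
  fun_prop

lemma A_hi {n : ℕ} (hn : 1 ≤ n) {x : ℝ} (hx : 1 / n ≤ x) : A n step x = 1 := by
  have h0 : (0:ℝ) < n := by exact_mod_cast hn
  have h1 : (0:ℝ) < 1 / n := by positivity
  rw [A_step hn, max_eq_left (a := x - 1 / n) (by linarith), max_eq_left (by linarith)]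
  field_simp
  ring

lemma A_lo {n : ℕ} (hn : 1 ≤ n) {x : ℝ} (hx : x ≤ -(1 / n)) : A n step x = 0 := by
  have h0 : (0:ℝ) < n := by exact_mod_cast hn
  have h1 : (0:ℝ) < 1 / n := by positivity
  rw [A_step hn, max_eq_right (a := x - 1 / n) (by linarith), max_eq_right (by linarith), mul_zero]

lemma A_mid {n : ℕ} (hn : 1 ≤ n) {x : ℝ} (hx : |x| ≤ 1 / n) : A n step x = n / 2 * (x + 1 / n) := by
  have h0 : (0:ℝ) < n := by exact_mod_cast hn
  have h1 : (0:ℝ) < 1 / n := by positivity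
  have h2 := abs_le.mp hx
  rw [A_step hn, max_eq_right (a := x - 1 / n) (by linarith [h2.2]), sub_zero,
    max_eq_left (by linarith [h2.1])]

lemma r_le {α c : ℝ} (hc : 0 ≤ c) {f g : ℝ → ℝ} (h1 : ∀ A ∈ graph f, ∃ B ∈ graph g, dist α A B ≤ c)
    (h2 : ∀ A ∈ graph g, ∃ B ∈ graph f, dist α A B ≤ c) : r α f g ≤ c := by
  have hd : ∀ A B, 0 ≤ dist α A B := fun A B => le_max_of_le_right (abs_nonneg _)
  refine max_le ?_ ?_
  · refine Real.iSup_le (fun A => ?_) hc
    obtain ⟨B, hB, hB'⟩ := h1 A A.2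
    exact (ciInf_le ⟨0, by rintro _ ⟨B, rfl⟩; exact hd _ _⟩ (⟨B, hB⟩ : graph g)).trans hB'
  · refine Real.iSup_le (fun A => ?_) hc
    obtain ⟨B, hB, hB'⟩ := h2 A A.2
    exact (ciInf_le ⟨0, by rintro _ ⟨B, rfl⟩; exact hd _ _⟩ (⟨B, hB⟩ : graph f)).trans hB'

lemma steklov {α : ℝ} (hα : 0 < α) {n : ℕ} (hn : 1 ≤ n) : α * n * r α step (A n step) ≤ 1 := by
  have h0 : (0:ℝ) < n := by exact_mod_cast hn
  set h : ℝ := 1 / n with hh
  have hpos : 0 < h := by positivity
  have hnh : (n:ℝ) * h = 1 := by rw [hh]; field_simp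
  have hc := A_cont hn
  have hdist : ∀ x x' y y' : ℝ, |x - x'| ≤ h → y = y' → dist α (x, y) (x', y') ≤ α⁻¹ * h := by
    intro x x' y y' hx hy
    have ha : 0 < α⁻¹ := inv_pos.mpr hα
    refine max_le ?_ ?_
    · exact mul_le_mul_of_nonneg_left hx ha.le
    · simp only [hy, sub_self, abs_zero]
      positivity
  have key : r α step (A n step) ≤ α⁻¹ * h := by
    refine r_le (by positivity) ?_ ?_
    · rintro ⟨x, y⟩ hxy
      rcases lt_trichotomy x 0 with hx | hx | hx
      · have hy := (graph_cont (step_neg hx).1 y).1 hxy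
        rw [(step_neg hx).2] at hy
        refine ⟨(min x (-h), 0), ?_, ?_⟩
        · rw [graph_cont hc.continuousAt, A_lo hn (min_le_right _ _)]
        · refine hdist _ _ _ _ ?_ hy
          rcases le_total x (-h) with h3 | h3
          · rw [min_eq_left h3, sub_self, abs_zero]; exact hpos.le
          · rw [min_eq_right h3, abs_le]; constructor <;> linarith
      · subst hx
        rw [step_zero] at hxy
        have hm : |h * (2 * y - 1)| ≤ h := by
          rw [abs_le]
          constructor <;> nlinarith [hxy.1, hxy.2]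
        refine ⟨(h * (2 * y - 1), y), ?_, ?_⟩
        · rw [graph_cont hc.continuousAt, A_mid hn hm, ← hh]
          have : (n:ℝ) / 2 * (h * (2 * y - 1) + h) = (n * h) * y := by ring
          rw [this, hnh, one_mul]
        · refine hdist _ _ _ _ ?_ rfl
          rwa [zero_sub, abs_neg]
      · have hy := (graph_cont (step_pos hx).1 y).1 hxy
        rw [(step_pos hx).2] at hy
        refine ⟨(max x h, 1), ?_, ?_⟩
        · rw [graph_cont hc.continuousAt, A_hi hn (le_max_right _ _)]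
        · refine hdist _ _ _ _ ?_ hy
          rcases le_total x h with h3 | h3
          · rw [max_eq_right h3, abs_le]; constructor <;> linarith
          · rw [max_eq_left h3, sub_self, abs_zero]; exact hpos.le
    · rintro ⟨x, y⟩ hxy
      rw [graph_cont hc.continuousAt] at hxy
      rcases le_total x (-h) with h3 | h3
      · refine ⟨(x, 0), ?_, ?_⟩
        · rw [graph_cont (step_neg (by linarith)).1, (step_neg (by linarith)).2]
        · refine hdist _ _ _ _ (by rw [sub_self, abs_zero]; exact hpos.le) ?_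
          rw [hxy, A_lo hn h3]
      · rcases le_total h x with h4 | h4
        · refine ⟨(x, 1), ?_, ?_⟩
          · rw [graph_cont (step_pos (by linarith)).1, (step_pos (by linarith)).2]
          · refine hdist _ _ _ _ (by rw [sub_self, abs_zero]; exact hpos.le) ?_
            rw [hxy, A_hi hn h4]
        · have hm : |x| ≤ h := abs_le.mpr ⟨h3, h4⟩
          refine ⟨(0, y), ?_, ?_⟩
          · rw [step_zero, hxy, A_mid hn hm, ← hh]
            have : (n:ℝ) / 2 * (x + h) = (n * x + n * h) / 2 := by ring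
            rw [this, hnh]
            have h5 : (n:ℝ) * x ≤ n * h := mul_le_mul_of_nonneg_left h4 h0.le
            have h6 : (n:ℝ) * (-h) ≤ n * x := mul_le_mul_of_nonneg_left h3 h0.le
            rw [mul_neg] at h6
            rw [hnh] at h5 h6
            constructor <;> linarith
          · refine hdist _ _ _ _ ?_ rfl
            rwa [sub_zero]
  calc α * n * r α step (A n step) ≤ α * n * (α⁻¹ * h) :=
        mul_le_mul_of_nonneg_left key (by positivity)
    _ = (α * α⁻¹) * (n * h) := by ring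
    _ = 1 := by rw [hnh, mul_inv_cancel₀ hα.ne', one_mul]

/-! ### the result -/

lemma sSup_top {A : Set ℝ} (h : ∀ c, c ∈ A) : sSup ((fun c : ℝ => (c : EReal)) '' A) = ⊤ := by
  rw [EReal.eq_top_iff_forall_lt]
  intro y
  refine lt_of_lt_of_le (EReal.coe_lt_coe_iff.mpr (lt_add_one y)) ?_
  exact le_sSup ⟨y + 1, h _, rfl⟩

/-- Let `α > 0`.
(1) `c_W^* = c_P^* = c_V^* = ∞`.
(2) Already finiteness of one of the three LOWER limits forces a bounded measurable function to be
continuous, i.e. it is enough that the rate holds along some sequence of indices (periodicity is not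
needed).
(3) The same for every approximate identity of nonnegative kernels which is positive at its scale.
(4) This positivity cannot be dropped: for the Steklov means (kernel `(n/2) 1_{[-1/n,1/n]}`, scale
`1/n`) and the unit step, which is discontinuous, `α n r(α; f, A_n f) ≤ 1` for all `n ≥ 1`. -/
theorem result (α : ℝ) (hα : 0 < α) :
    (cW α = ⊤ ∧ cP α = ⊤ ∧ cV α = ⊤) ∧
    (∀ f : ℝ → ℝ, Adm f → (lW α f < ⊤ ∨ lP α f < ⊤ ∨ lV α f < ⊤) → Continuous f) ∧
    (∀ (k : ℕ → ℝ → ℝ) (s : ℕ → ℝ), Good k s → ∀ f : ℝ → ℝ, Adm f →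
      liminf (fun n : ℕ => ((α / s n * r α f (T (k n) f) : ℝ) : EReal)) atTop < ⊤ →
      Continuous f) ∧
    (Adm step ∧ ¬ Continuous step ∧ ∀ n : ℕ, 1 ≤ n → α * n * r α step (A n step) ≤ 1) := by
  have hW : ∀ f : ℝ → ℝ, Adm f → lW α f < ⊤ → Continuous f := fun f hf h => by
    obtain ⟨c, hc⟩ := freq_of_liminf h
    exact contW hα hf hc
  have hP : ∀ f : ℝ → ℝ, Adm f → lP α f < ⊤ → Continuous f := fun f hf h => by
    obtain ⟨c, hc⟩ := freq_of_liminf h
    exact contP hα hf hc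
  have hV : ∀ f : ℝ → ℝ, Adm f → lV α f < ⊤ → Continuous f := fun f hf h => by
    obtain ⟨c, hc⟩ := freq_of_liminf h
    exact contV hα hf hc
  refine ⟨⟨sSup_top fun c f hf h => hW f hf ?_, sSup_top fun c f hf _ h => hP f hf ?_,
    sSup_top fun c f hf _ h => hV f hf ?_⟩, ?_, ?_, step_adm, step_not_cont,
    fun n hn => steklov hα hn⟩
  · exact lt_of_le_of_lt liminf_le_limsup (h.trans (EReal.coe_lt_top c))
  · exact lt_of_le_of_lt liminf_le_limsup (h.trans (EReal.coe_lt_top c))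
  · exact lt_of_le_of_lt liminf_le_limsup (h.trans (EReal.coe_lt_top c))
  · rintro f hf (h | h | h)
    · exact hW f hf h
    · exact hP f hf h
    · exact hV f hf h
  · intro k s hG f hf h
    obtain ⟨c, hc⟩ := freq_of_liminf h
    refine core_freq hf hα hG (C := c / α) (hc.mono fun n hn => ?_)
    have hpos := hG.pos n
    rw [div_mul_eq_mul_div, div_lt_iff₀ hpos] at hn
    rw [div_mul_eq_mul_div, lt_div_iff₀ hα]
    calc r α f (T (k n) f) * α = α * r α f (T (k n) f) := by ring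
      _ < c * s n := hn

end

end Pool.Agent.Results.MP_fbd0a7_an.LowerLimits
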